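import Pool.Agent.H.MP_c357a0_lc.A

set_option autoImplicit false

namespace Pool.Agent.Results.MP_c357a0_lc.None

open Pool.Agent.Lib.helper21.PR Pool.Agent.H.MP_fa2eca_lc Pool.Agent.H.MP_c357a0_lc Filter
open Pool.Agent.Lib.helper21.ML (pre_congr)

attribute [local irreducible] Primrec Computable

/-- the existential levels of the arithmetical hierarchy -/
def Sig : ℕ → (ℕ → Prop) → Prop
  | 0, P => ComputablePred P
  | n + 1, P => ∃ Q, Sig n Q ∧ ∀ x, P x ↔ ∃ y, ¬ Q (x.pair y)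

def Pi0 (n : ℕ) (A : Set ℕ) : Prop := Sig n fun x => x ∉ A

/-- `l` lists an `n`-element subset of `H` in increasing order -/
def Sub (n : ℕ) (H : Set ℕ) (l : List ℕ) : Prop := l.length = n ∧ l.Pairwise (· < ·) ∧ ∀ x ∈ l, x ∈ H

def Hom (n : ℕ) (C : List ℕ → Prop) (H : Set ℕ) : Prop :=
  (∀ l, Sub n H l → C l) ∨ ∀ l, Sub n H l → ¬ C l

def AlmostHom (n : ℕ) (C : List ℕ → Prop) (H : Set ℕ) : Prop :=
  ∃ F : Set ℕ, F.Finite ∧ Hom n C (H \ F)

def Cohesive (n : ℕ) (A : Set ℕ) : Prop := A.Infinite ∧ ∀ C, REPred C → AlmostHom n C A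

def fl : ℕ → Filter (List ℕ)
  | 0 => pure []
  | n + 1 => atTop.bind fun y => (fl n).map (y :: ·)

theorem lim : ∀ n P, Sig n P → ∃ g : ℕ → List ℕ → Bool,
    (CI (fun _ => false) fun z : ℕ × List ℕ => g z.1 z.2) ∧ ∀ x, ∀ᶠ l in fl n, (g x l = true ↔ P x)
  | 0, P, h => by
    obtain ⟨f, h1, rfl⟩ := ComputablePred.computable_iff.1 h
    exact ⟨fun x _ => f x, Computable.ci (h1.comp .fst), fun _ => .of_forall fun _ => .rfl⟩
  | n + 1, P, ⟨Q, h1, h2⟩ => by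
    obtain ⟨g, h3, h4⟩ := lim n Q h1
    refine ⟨fun x l => cd (∃ w < l.headD 0, ¬ g (x.pair w) l.tail = true), by fun_prop, fun x => ?_⟩
    have : ∀ᶠ y in atTop, (∃ w < y, ¬ Q (x.pair w)) ↔ P x := by
      by_cases c : P x
      · obtain ⟨w, d⟩ := (h2 x).1 c
        exact (eventually_gt_atTop w).mono fun y e => iff_of_true ⟨w, e, d⟩ c
      · exact .of_forall fun y => iff_of_false (fun ⟨w, _, d⟩ => c ((h2 x).2 ⟨w, d⟩)) c
    refine eventually_bind.2 (this.mono fun y e => eventually_map.2 (((eventually_all_finite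
      (Set.finite_Iio y)).2 fun w _ => h4 (x.pair w)).mono fun l k => ?_))
    rw [cd_true, ← e]
    exact exists_congr fun w => and_congr_right fun a => not_congr (k w a)

theorem pick {A : Set ℕ} (h : A.Infinite) : ∀ n (P : List ℕ → Prop), (∀ᶠ l in fl n, P l) →
    ∀ b, ∃ l, P l ∧ Sub n A l ∧ ∀ x ∈ l, b < x
  | 0, _, k, _ => ⟨[], k, by simp [Sub]⟩
  | n + 1, P, k, b => by
    obtain ⟨m, k⟩ := eventually_atTop.1 (eventually_bind.1 k)
    obtain ⟨y, a, c⟩ := h.exists_gt (m + b)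
    obtain ⟨l, d, ⟨e1, e2, e3⟩, f⟩ := pick h n _ (eventually_map.1 (k y (by omega))) y
    exact ⟨y :: l, d, ⟨by simp [e1], List.pairwise_cons.2 ⟨f, e2⟩, by simpa [a] using e3⟩,
      List.forall_mem_cons.2 ⟨by omega, fun x u => by have := f x u; omega⟩⟩

theorem key (n : ℕ) (A : Set ℕ) (hA : Pi0 (n + 2) A) (inf : A.Infinite) :
    ∃ c : List ℕ → Bool, CI (fun _ => false) c ∧ ¬ AlmostHom (n + 2) (c · = true) A := by
  obtain ⟨Q, h1, h2⟩ := hA
  obtain ⟨g, h3, h4⟩ := lim _ Q h1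
  obtain ⟨f, f1, f2⟩ := stp
  have hv := val_prim
  let rn : (ℕ → ℕ → Bool) → ℕ → Tb := fun B => Nat.rec [] fun s T => f (pre (B s) s, T)
  let G : List ℕ → ℕ → ℕ → Bool := fun l s x => cd (∀ w < s, g (x.pair w) l = true)
  let B : ℕ → ℕ → Bool := fun s x => cd (∀ w < s, Q (x.pair w))
  have hB : ∀ x, (∀ s, B s x = true) ↔ x ∈ A := fun x => by
    simp only [B, cd_true, ← not_iff_not (b := x ∈ A), h2, not_forall]
    exact ⟨fun ⟨_, w, _, a⟩ => ⟨w, a⟩, fun ⟨w, a⟩ => ⟨w + 1, w, by omega, a⟩⟩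
  refine ⟨fun l => (val (rn (G l.tail) (l.tail.headD 0)) (l.headD 0)).2,
    by unfold rn G; fun_prop, fun ⟨F, hF, h⟩ => ?_⟩
  obtain ⟨m, hm⟩ := hF.bddAbove
  obtain ⟨s, u, t, a1, a2, a3, a4, a5⟩ := prog (B := B) (T := rn B) rfl (fun s => f2 (_, _))
    (fun s x => by simpa only [B, cd_true] using fun a w b => a w (by omega))
    (fun m => (inf.exists_gt m).imp fun x a => ⟨a.2, (hB x).2 a.1⟩) m
  have e1 : ∀ᶠ l in fl (n + 1), s ≤ l.headD 0 := eventually_bind.2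
    ((eventually_ge_atTop s).mono fun y a => eventually_map.2 (.of_forall fun _ => a))
  obtain ⟨l, ⟨b1, b2⟩, ⟨c1, c2, c3⟩, c4⟩ := pick inf _ _ (e1.and ((eventually_all_finite
    (Set.finite_Iio s)).2 fun x _ => (eventually_all_finite (Set.finite_Iio s)).2 fun w _ =>
      h4 (x.pair w))) t
  have e2 : ∀ k ≤ s, rn (G l) k = rn B k := fun k a => by
    induction k with
    | zero => rfl
    | succ k ih =>
      refine congrArg f (Prod.ext (pre_congr fun x d => congrArg cd (propext (forall₂_congr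
        fun w e => b2 x ?_ w ?_))) (ih (by omega))) <;> exact Set.mem_Iio.2 (by omega)
  have e3 := (odd_le (B := G l) (T := rn (G l)) (fun s => f2 (_, _)) (e2 s le_rfl ▸ a5) b1).2
  have e4 : ∀ x, m < x → x ≤ t → x ∈ A → Sub (n + 2) (A \ F) (x :: l) := fun x k1 k2 k3 =>
    ⟨by simp [c1], List.pairwise_cons.2 ⟨fun y k => k2.trans_lt (c4 y k), c2⟩,
      List.forall_mem_cons.2 ⟨⟨k3, fun k => k1.not_ge (hm k)⟩, fun y k =>
        ⟨c3 y k, fun j => (c4 y k).not_ge ((hm j).trans (by omega))⟩⟩⟩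
  have e5 := e4 u a1 a2.le ((hB u).1 a3)
  have e6 := e4 t (by omega) le_rfl ((hB t).1 a4)
  rcases h with h | h
  · exact e3 ((h _ e5).trans (h _ e6).symm)
  · exact e3 ((Bool.eq_false_iff.2 (h _ e5)).trans (Bool.eq_false_iff.2 (h _ e6)).symm)

theorem result (n : ℕ) (hn : 2 ≤ n) (A : Set ℕ) (hA : Pi0 n A) :
    ¬ Cohesive n A ∧ (A.Infinite → ∃ C, ComputablePred C ∧ ¬ AlmostHom n C A) := by
  obtain ⟨n, rfl⟩ := Nat.exists_eq_add_of_le' hn
  have : A.Infinite → ∃ C, ComputablePred C ∧ ¬ AlmostHom (n + 2) C A := fun inf => by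
    obtain ⟨c, h1, h2⟩ := key n A hA inf
    exact ⟨_, ComputablePred.computable_iff_re_compl_re'.2
      ⟨(r_pw (RI.re (RI.un (by fun_prop)))).re, (r_pw (RI.re (RI.un (by fun_prop)))).re⟩, h2⟩
  exact ⟨fun h => (this h.1).elim fun C k => k.2 (h.2 C k.1.to_re), this⟩

end Pool.Agent.Results.MP_c357a0_lc.None
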